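import Pool.Agent.K.MP_20768c_nt.C1

open Complex UpperHalfPlane Filter Topology CongruenceSubgroup ModularForm
open scoped MatrixGroups
open Pool.Agent.P.MP_20768c_nt

/-- For a weight two eigenform of level prime to `p` that is not ordinary at `p`, the Mazur, Tate
elements of sign `s` are integral for the periods of `X₁(M)`, and for each parity one branch has
`μ = 0` at all large levels of that parity. -/
theorem Pool.Agent.Results.MP_20768c_nt.BothParities.result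
    (p : ℕ) [hp : Fact p.Prime] (M : ℕ) [NeZero M] (hM : ¬ p ∣ M)
    (ε : DirichletCharacter ℂ M) (f : CuspForm (Gamma1 M) 2) (hf : f ≠ 0)
    (hε : ∀ γ ∈ Gamma0 M, ⇑f ∣[(2 : ℤ)] γ = ε ((γ 1 1 : ℤ) : ZMod M) • ⇑f) (a : ℂ)
    (hT : ∀ z : ℍ, (p : ℂ)⁻¹ * ∑ k ∈ Finset.range p, f (ofComplex (((z : ℂ) + k) / p)) +
      ε (p : ZMod M) * p * f (ofComplex (p * (z : ℂ))) = a * f z)
    (ι : ℂ →+* ℂ_[p]) (ha : ‖ι a‖ < 1) (s : ℤ) (hs : s = 1 ∨ s = -1) :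
    ∃ P : ℝ, 0 < P ∧
      IsGreatest {x | ∃ b d : ℤ, IsCoprime b d ∧ (M : ℤ) ∣ d - 1 ∧
        x = ‖ι (sym f (b / d) - sym f 0 + s * (sym f (-(b / d)) - sym f 0))‖} P ∧
      (∀ ψ n j, ψ (-1) = (s : ℂ_[p]) → ‖theta (fun r => ι (sym f r)) ψ n j‖ ≤ P) ∧
      ∀ e, e < 2 → ∃ ψ n0, ψ (-1) = (s : ℂ_[p]) ∧ ∀ n, n0 ≤ n → n % 2 = e →
        ∃ j, j < p ^ n ∧ ‖theta (fun r => ι (sym f r)) ψ n j‖ = P :=
  main_par p M hM ε f hf hε a hT ι ha s hs
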