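import Pool.Agent.K.MP_20768c_nt.C0

open Complex UpperHalfPlane Filter Topology CongruenceSubgroup ModularForm
open scoped MatrixGroups
open Pool.Agent.P.MP_20768c_nt

/-- For a `p`-ordinary weight two eigenform the `p`-adic `L`-functions of sign `s` have largest
coefficient norm equal to the largest norm of a period of `X₁(M)` of sign `s`. -/
theorem Pool.Agent.Results.MP_20768c_nt.MuZero.result
    (p : ℕ) [hp : Fact p.Prime] (M : ℕ) [NeZero M] (ε : DirichletCharacter ℂ M)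
    (f : CuspForm (Gamma1 M) 2) (hf : f ≠ 0)
    (hε : ∀ γ ∈ Gamma0 M, ⇑f ∣[(2 : ℤ)] γ = ε ((γ 1 1 : ℤ) : ZMod M) • ⇑f) (a : ℂ)
    (hT : ∀ z : ℍ, (p : ℂ)⁻¹ * ∑ k ∈ Finset.range p, f (ofComplex (((z : ℂ) + k) / p)) +
      ε (p : ZMod M) * p * f (ofComplex (p * (z : ℂ))) = a * f z)
    (ι : ℂ →+* ℂ_[p]) (α : ℂ_[p]) (hα : α ^ 2 - ι a * α + ι (ε (p : ZMod M)) * p = 0)
    (hα1 : ‖α‖ = 1) (s : ℤ) (hs : s = 1 ∨ s = -1) :
    ∃ L : DirichletCharacter ℂ_[p] (p ^ wd p) → PowerSeries ℂ_[p],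
      (∀ ψ k, Tendsto (riem (mtt (fun r => ι (sym f r)) (ι (ε (p : ZMod M))) α) ψ k) atTop
        (𝓝 (PowerSeries.coeff k (L ψ)))) ∧
      ∃ P : ℝ, 0 < P ∧
        IsGreatest {x | ∃ b d : ℤ, IsCoprime b d ∧ (M : ℤ) ∣ d - 1 ∧
          x = ‖ι (sym f (b / d) - sym f 0 + s * (sym f (-(b / d)) - sym f 0))‖} P ∧
        IsGreatest {x | ∃ ψ k, ψ (-1) = (s : ℂ_[p]) ∧ x = ‖PowerSeries.coeff k (L ψ)‖} P :=
  main p M ε f hf hε a hT ι α hα hα1 s hs
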