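import Pool.Agent.P.MP_20768c_nt.Tz.Z18
import Pool.Agent.P.MP_20768c_nt.Tz.Stat

set_option autoImplicit false

open NumberField IsDedekindDomain
open Pool.Agent.P.MP_20768c_nt.Ct

/-- Conjecture A at `p = 3` when `K` and `E[3]` lie in a Galois extension `L` of `3`-power degree
of a finite abelian extension `N` of an imaginary quadratic field `ℚ(δ)`, `δ ^ 2 = D`, in which
`3` splits. -/
theorem Pool.Agent.Results.MP_20768c_nt.ThreeSplit.result
    (K : Type) [Field K] [NumberField K] (E : WeierstrassCurve K) [E.IsElliptic]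
    (D : ℤ) (hD : D < 0) (h3 : D % 3 = 1) (δ : AlgebraicClosure K) (hδ : δ ^ 2 = D)
    (N : IntermediateField (IntermediateField.adjoin ℚ {δ}) (AlgebraicClosure K))
    (hN : IsAbelianGalois (IntermediateField.adjoin ℚ {δ}) N)
    (hf : FiniteDimensional (IntermediateField.adjoin ℚ {δ}) N)
    (L : IntermediateField N (AlgebraicClosure K)) (hL : IsGalois N L) (r : ℕ)
    (hr : Module.finrank N L = 3 ^ r)
    (hK : ∀ x : K, algebraMap K (AlgebraicClosure K) x ∈ L)
    (hE : ∀ (g : Gal K) (P : Pt E), (∀ x ∈ L, g x = x) → P + P + P = 0 → act E g P = P)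
    (F : IntermediateField K (AlgebraicClosure K)) (hF : IsCyc F)
    (S : Set (HeightOneSpectrum (𝓞 K))) (hS : S.Finite) :
    DualFG (Sel E S F) :=
  Pool.Agent.P.MP_20768c_nt.Tz.Cv.mainA K E D hD h3 δ hδ N hN hf L hL r hr hK
    (fun g P h hP => Subtype.ext (hE g P.1 h (congrArg Subtype.val hP))) F hF S hS
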